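import Mathlib

open Set Filter Topology OnePoint

/-!
# No class of test spaces characterises UOK

Let `K` be the space of ultrafilters on a countable set (i.e. `βω`) and `q` a free ultrafilter.
For an open set `A` of a space `Y` let `Double Y A` be two copies of `Y` glued along `A`.
Suppose a class `C` of test spaces had the property that a space is `C`-Hausdorff iff it is UOK.

* `Double K A` is UOK if `A` is a countable union of basic clopen sets, because `K` has no
  nontrivial convergent sequences.  Hence every continuous map from a member of `C` to `K` is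
  continuous as a map into `Kδ`, the set `K` with the `G_δ`-topology.
* `Double Kδ {q}ᶜ` is UOK, because compact subsets of the `P`-space `Kδ` are finite.
* `Double K {q}ᶜ` is not UOK, so it is not `C`-Hausdorff; a test space `Z` and two maps witnessing
  this would also witness that `Double Kδ {q}ᶜ` is not `C`-Hausdorff, a contradiction.
-/

namespace Pool.Agent.Results.MP_82653f_gt.NoTestClassForUOK

universe u

/-- `H ⊆ X` is `C`-closed if `f ⁻¹' H` is closed in `Z` for all `Z` in `C`, `f : Z → X`
continuous. A class `C` of spaces is a predicate on types with a topology. -/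
def CClosed (C : ∀ Z : Type u, TopologicalSpace Z → Prop) {X : Type u} [TopologicalSpace X]
    (H : Set X) : Prop :=
  ∀ (Z : Type u) (t : TopologicalSpace Z), C Z t → ∀ f : Z → X, Continuous f → IsClosed (f ⁻¹' H)

/-- `X` is `C`-Hausdorff if the diagonal is `C`-closed in `X × X`. -/
def CHausdorff (C : ∀ Z : Type u, TopologicalSpace Z → Prop) (X : Type u) [TopologicalSpace X] :
    Prop :=
  CClosed C {x : X × X | x.1 = x.2}

/-- `X` is UOK: a continuous map from a non-compact locally compact Hausdorff space `L` to `X` has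
at most one continuous extension to the one-point compactification of `L`. -/
def UOK (X : Type u) [TopologicalSpace X] : Prop :=
  ∀ (L : Type u) [TopologicalSpace L] [LocallyCompactSpace L] [T2Space L] [NoncompactSpace L]
    (f : L → X), Continuous f → ∀ g h : OnePoint L → X, Continuous g → Continuous h →
      (∀ l : L, g (l : OnePoint L) = f l) → (∀ l : L, h (l : OnePoint L) = f l) → g = h

section double

variable {K : Type u}

/-- Two points of `K × Bool` are identified if they are equal or both are copies of the same point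
of `A`. -/
def gluing (A : Set K) : Setoid (K × Bool) where
  r x y := x.1 = y.1 ∧ (x.2 = y.2 ∨ x.1 ∈ A)
  iseqv := by
    refine ⟨fun x => ⟨rfl, Or.inl rfl⟩, ?_, ?_⟩
    · rintro ⟨x, a⟩ ⟨y, b⟩ ⟨h1, h2⟩
      simp only at h1 h2 ⊢
      subst h1
      exact ⟨rfl, h2.imp Eq.symm id⟩
    · rintro ⟨x, a⟩ ⟨y, b⟩ ⟨z, c⟩ ⟨h1, h2⟩ ⟨h3, h4⟩
      simp only at h1 h2 h3 h4 ⊢
      subst h1
      subst h3
      refine ⟨rfl, ?_⟩
      rcases h2 with rfl | h2
      · exact h4
      · exact Or.inr h2

/-- The double of `K` along `A`. -/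
def Double (K : Type u) (A : Set K) : Type u := Quotient (gluing A)

instance (A : Set K) [TopologicalSpace K] : TopologicalSpace (Double K A) :=
  inferInstanceAs (TopologicalSpace (Quotient (gluing A)))

variable (A : Set K)

/-- The two copies of `K` in the double. -/
def inc (b : Bool) (x : K) : Double K A := Quotient.mk (gluing A) (x, b)

/-- The projection of the double to `K`. -/
def proj : Double K A → K := Quotient.lift (fun x => x.1) (fun _ _ h => h.1)

@[simp] lemma proj_inc (b : Bool) (x : K) : proj A (inc A b x) = x := rfl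

lemma inc_eq_inc {b c : Bool} {x y : K} : inc A b x = inc A c y ↔ x = y ∧ (b = c ∨ x ∈ A) := by
  constructor
  · intro h
    exact Quotient.exact (s := gluing A) h
  · intro h
    exact Quotient.sound (s := gluing A) h

lemma exists_inc (z : Double K A) : ∃ b, z = inc A b (proj A z) := by
  induction z using Quotient.inductionOn with
  | h x => exact ⟨x.2, rfl⟩

variable [TopologicalSpace K]

lemma continuous_inc (b : Bool) : Continuous (inc A b) :=
  continuous_quotient_mk'.comp (by fun_prop)

lemma continuous_proj : Continuous (proj A) := continuous_fst.quotient_lift _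

lemma isOpen_range_inc (hA : IsOpen A) (b : Bool) : IsOpen (range (inc A b)) := by
  have : IsOpen ((Quotient.mk (gluing A)) ⁻¹' (range (inc A b))) := by
    have h1 : (Quotient.mk (gluing A)) ⁻¹' (range (inc A b)) =
        {x : K × Bool | x.2 = b} ∪ {x | x.1 ∈ A} := by
      ext ⟨x, c⟩
      constructor
      · rintro ⟨y, hy⟩
        have := (inc_eq_inc A).mp (show inc A b y = inc A c x from hy)
        rcases this with ⟨rfl, rfl | h⟩
        · exact Or.inl rfl
        · exact Or.inr h
      · rintro (h | h)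
        · change c = b at h
          exact ⟨x, by rw [h]; rfl⟩
        · exact ⟨x, (inc_eq_inc A).mpr ⟨rfl, Or.inr h⟩⟩
    rw [h1]
    exact ((isOpen_discrete {b}).preimage continuous_snd).union (hA.preimage continuous_fst)
  exact this

/-- A criterion for the double to be UOK. -/
lemma uok_double [T2Space K] (hA : IsOpen A)
    (hno : ∀ (T : Type u) [TopologicalSpace T] [CompactSpace T] [T2Space T] (t : T)
      [NeBot (𝓝[≠] t)] (w : T → K), Continuous w → w t ∉ A → ¬ ∀ᶠ x in 𝓝[≠] t, w x ∈ A) :
    UOK (Double K A) := by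
  intro L _ _ _ _ f _ g h hg hh hgf hhf
  have hgh : ∀ l : L, g l = h l := fun l => (hgf l).trans (hhf l).symm
  have hproj : ∀ x, proj A (g x) = proj A (h x) := by
    have : (fun x => proj A (g x)) = fun x => proj A (h x) :=
      DenseRange.equalizer denseRange_coe ((continuous_proj A).comp hg)
        ((continuous_proj A).comp hh) (by funext l; simp [hgh l])
    exact fun x => congrFun this x
  suffices hinf : g ∞ = h ∞ by
    funext x
    induction x using OnePoint.rec with
    | infty => exact hinf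
    | coe l => exact hgh l
  by_contra hne
  obtain ⟨a, ha⟩ := exists_inc A (g ∞)
  obtain ⟨b, hb⟩ := exists_inc A (h ∞)
  rw [← hproj] at hb
  set k := proj A (g ∞) with hk
  have hab : ¬ (a = b ∨ k ∈ A) := by
    intro hab
    apply hne
    rw [ha, hb]
    exact (inc_eq_inc A).mpr ⟨rfl, hab⟩
  push Not at hab
  refine hno (OnePoint L) ∞ (fun x => proj A (g x)) ((continuous_proj A).comp hg) hab.2 ?_
  have h1 : ∀ᶠ x in 𝓝[≠] (∞ : OnePoint L), g x ∈ range (inc A a) :=
    (hg.continuousAt.eventually_mem ((isOpen_range_inc A hA a).mem_nhds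
      (by rw [ha]; exact mem_range_self k))).filter_mono nhdsWithin_le_nhds
  have h2 : ∀ᶠ x in 𝓝[≠] (∞ : OnePoint L), h x ∈ range (inc A b) :=
    (hh.continuousAt.eventually_mem ((isOpen_range_inc A hA b).mem_nhds
      (by rw [hb]; exact mem_range_self k))).filter_mono nhdsWithin_le_nhds
  have h3 : ∀ᶠ x in 𝓝[≠] (∞ : OnePoint L), x ≠ ∞ := eventually_mem_nhdsWithin
  filter_upwards [h1, h2, h3] with x hx1 hx2 hx3
  obtain ⟨l, rfl⟩ := ne_infty_iff_exists.mp hx3
  obtain ⟨y, hy⟩ := hx1
  obtain ⟨z, hz⟩ := hx2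
  rw [← hgh l] at hz
  rw [← hy] at hz
  have := (inc_eq_inc A).mp hz
  rw [← hy, proj_inc, ← this.1]
  rcases this.2 with h4 | h4
  · exact absurd h4.symm hab.1
  · exact h4

end double

section beta

variable {α : Type u}

lemma isOpen_mem {T : Type u} [TopologicalSpace T] {w : T → Ultrafilter α} (hw : Continuous w)
    (s : Set α) : IsOpen {x | s ∈ w x} := (ultrafilter_isOpen_basic s).preimage hw

lemma isClosed_mem {T : Type u} [TopologicalSpace T] {w : T → Ultrafilter α} (hw : Continuous w)
    (s : Set α) : IsClosed {x | s ∈ w x} := (ultrafilter_isClosed_basic s).preimage hw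

/-- There are no nontrivial convergent sequences in the space of ultrafilters. -/
lemma no_countable_approach (s : ℕ → Set α)
    (T : Type u) [TopologicalSpace T] [CompactSpace T] [T2Space T] (t : T) [NeBot (𝓝[≠] t)]
    (w : T → Ultrafilter α) (hw : Continuous w) (ht : w t ∉ {k : Ultrafilter α | ∃ n, s n ∈ k}) :
    ¬ ∀ᶠ x in 𝓝[≠] t, w x ∈ {k : Ultrafilter α | ∃ n, s n ∈ k} := by
  classical
  intro hev
  simp only [mem_ofPred_eq, not_exists] at ht hev
  rw [eventually_nhdsWithin_iff] at hev
  obtain ⟨N, hN, hNc, hNA⟩ := exists_mem_nhds_isClosed_subset hev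
  have hpick : ∀ M : ℕ, ∃ x ∈ N, x ≠ t ∧ ∀ i < M, s i ∉ w x := by
    intro M
    have h1 : ∀ᶠ x in 𝓝 t, ∀ i ∈ Iio M, s i ∉ w x := by
      rw [eventually_all_finite (finite_Iio M)]
      intro i _
      exact (isClosed_mem hw (s i)).isOpen_compl.mem_nhds (ht i)
    have h0 : ∀ᶠ x in 𝓝 t, x ∈ N := hN
    have h2 : ∀ᶠ x in 𝓝[≠] t, x ∈ N ∧ x ≠ t ∧ ∀ i ∈ Iio M, s i ∉ w x :=
      (h0.filter_mono nhdsWithin_le_nhds).and
        (eventually_mem_nhdsWithin.and (h1.filter_mono nhdsWithin_le_nhds))
    obtain ⟨x, hx1, hx2, hx3⟩ := h2.exists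
    exact ⟨x, hx1, hx2, hx3⟩
  choose pick hpN hpt hps using hpick
  have hA : ∀ M, ∃ n, s n ∈ w (pick M) := fun M => hNA (hpN M) (hpt M)
  let F : ℕ → ℕ := fun M => Nat.find (hA M)
  have hF1 : ∀ M, s (F M) ∈ w (pick M) := fun M => Nat.find_spec (hA M)
  have hF2 : ∀ M, ∀ i < F M, s i ∉ w (pick M) := fun M i hi => Nat.find_min (hA M) hi
  have hF3 : ∀ M, M ≤ F M := by
    intro M
    by_contra h
    exact hps M _ (not_le.mp h) (hF1 M)
  let m : ℕ → ℕ := fun j => Nat.rec 0 (fun _ M => F M + 1) j
  have hm : ∀ j, m (j + 1) = F (m j) + 1 := fun j => rfl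
  have hmono : StrictMono m := strictMono_nat_of_lt_succ fun j => by
    rw [hm]; exact Nat.lt_succ_of_le (hF3 _)
  let v : ℕ → Set α := fun j => {a | a ∈ s (F (m j)) ∧ ∀ i < F (m j), a ∉ s i}
  have hv : ∀ j, v j ∈ w (pick (m j)) := by
    intro j
    have h1 : {a | ∀ i ∈ Iio (F (m j)), a ∉ s i} ∈ w (pick (m j)) := by
      have : {a | ∀ i ∈ Iio (F (m j)), a ∉ s i} = ⋂ i ∈ Iio (F (m j)), (s i)ᶜ := by
        ext a; simp
      rw [this]
      exact (biInter_mem (finite_Iio _)).mpr fun i hi =>
        Ultrafilter.compl_mem_iff_notMem.mpr (hF2 (m j) i hi)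
    exact inter_mem (hF1 (m j)) h1
  have hdisj : ∀ i j, i ≠ j → Disjoint (v i) (v j) := by
    have : ∀ i j, i < j → Disjoint (v i) (v j) := by
      intro i j hij
      rw [Set.disjoint_left]
      intro a ha hb
      have h1 : m (i + 1) ≤ m j := hmono.monotone hij
      rw [hm] at h1
      exact hb.2 (F (m i)) (lt_of_lt_of_le (by omega) (hF3 (m j))) ha.1
    intro i j hij
    rcases lt_or_gt_of_ne hij with h | h
    · exact this i j h
    · exact (this j i h).symm
  let S : Set α := ⋃ j, v (2 * j)
  have hS0 : ∀ j, S ∈ w (pick (m (2 * j))) := fun j =>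
    mem_of_superset (hv (2 * j)) (subset_iUnion (fun j => v (2 * j)) j)
  have hS1 : ∀ j, S ∉ w (pick (m (2 * j + 1))) := by
    intro j h
    have h1 : S ∩ v (2 * j + 1) = ∅ := by
      rw [← Set.disjoint_iff_inter_eq_empty]
      exact Set.disjoint_iUnion_left.mpr fun i => hdisj (2 * i) (2 * j + 1) (by omega)
    have := inter_mem h (hv (2 * j + 1))
    rw [h1] at this
    exact Ultrafilter.empty_notMem this
  -- `t` is a cluster point of both subsequences
  have hcl : ∀ c : ℕ, MapClusterPt t atTop (fun j => pick (m (2 * j + c))) := by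
    intro c
    obtain ⟨t', ht'⟩ := exists_clusterPt_of_compactSpace (map (fun j => pick (m (2 * j + c))) atTop)
    have ht'' : MapClusterPt t' atTop (fun j => pick (m (2 * j + c))) := ht'
    have ht'N : t' ∈ N := hNc.mem_of_mapClusterPt ht''
      (Eventually.of_forall fun j => hpN _)
    by_cases htt : t' = t
    · rwa [htt] at ht''
    · exfalso
      obtain ⟨n, hn⟩ := hNA ht'N htt
      have h1 : ∃ᶠ j in atTop, pick (m (2 * j + c)) ∈ {x | s n ∈ w x} :=
        ht''.frequently ((isOpen_mem hw (s n)).mem_nhds hn)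
      obtain ⟨j, hj, hjn⟩ := (h1.and_eventually (eventually_gt_atTop n)).exists
      refine hps _ n ?_ hj
      have := hmono.id_le (2 * j + c)
      simp only [id] at this
      omega
  by_cases hSt : S ∈ w t
  · obtain ⟨j, hj⟩ := ((hcl 1).frequently ((isOpen_mem hw S).mem_nhds hSt)).exists
    exact hS1 j hj
  · obtain ⟨j, hj⟩ := ((hcl 0).frequently
      ((isClosed_mem hw S).isOpen_compl.mem_nhds hSt)).exists
    exact hj (hS0 j)

/-- The set of ultrafilters on `α`, to be equipped with the `G_δ`-topology. -/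
structure Kd (α : Type u) : Type u where
  /-- the underlying ultrafilter -/
  val : Ultrafilter α

/-- The topology on the set of ultrafilters generated by the sets `{k | ∀ j, e j ∈ k}`. -/
instance : TopologicalSpace (Kd α) :=
  TopologicalSpace.generateFrom {V | ∃ e : ℕ → Set α, V = {k : Kd α | ∀ j, e j ∈ k.val}}

lemma isOpen_kd (e : ℕ → Set α) : IsOpen {k : Kd α | ∀ j, e j ∈ k.val} :=
  TopologicalSpace.isOpen_generateFrom_of_mem ⟨e, rfl⟩

lemma isOpen_kd_single (s : Set α) : IsOpen {k : Kd α | s ∈ k.val} := by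
  have := isOpen_kd (fun _ : ℕ => s)
  simpa using this

lemma exists_mem_notMem {k q : Ultrafilter α} (h : k ≠ q) : ∃ s, s ∈ q ∧ s ∉ k := by
  by_contra hcon
  push Not at hcon
  exact h (Ultrafilter.coe_le_coe.mp hcon)

instance : T2Space (Kd α) := by
  refine ⟨fun k l hkl => ?_⟩
  obtain ⟨s, hs, hsl⟩ : ∃ s, s ∈ k.val ∧ s ∉ l.val := by
    refine exists_mem_notMem fun h => hkl ?_
    cases k; cases l
    simp only at h
    rw [h]
  refine ⟨_, _, isOpen_kd_single s, isOpen_kd_single sᶜ, hs,
    Ultrafilter.compl_mem_iff_notMem.mpr hsl, ?_⟩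
  rw [Set.disjoint_left]
  intro m hm1 hm2
  exact Ultrafilter.compl_mem_iff_notMem.mp hm2 hm1

/-- Continuous maps from compact Hausdorff spaces to `Kd α` have clopen fibres. -/
lemma no_approach_kd (q : Kd α)
    (T : Type u) [TopologicalSpace T] [CompactSpace T] [T2Space T] (t : T) [NeBot (𝓝[≠] t)]
    (w : T → Kd α) (hw : Continuous w) (ht : w t ∉ ({q}ᶜ : Set (Kd α))) :
    ¬ ∀ᶠ x in 𝓝[≠] t, w x ∈ ({q}ᶜ : Set (Kd α)) := by
  intro hev
  have htq : w t = q := by simpa using ht
  have hopen : ∀ s : Set α, IsOpen {x | s ∈ (w x).val} := fun s =>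
    (isOpen_kd_single s).preimage hw
  have hclosed : ∀ s : Set α, IsClosed {x | s ∈ (w x).val} := by
    intro s
    have : {x | s ∈ (w x).val} = {x | sᶜ ∈ (w x).val}ᶜ := by
      ext x
      rw [mem_compl_iff, mem_ofPred_eq, mem_ofPred_eq]
      exact Ultrafilter.compl_notMem_iff.symm
    rw [this]
    exact (hopen _).isClosed_compl
  have hstep : ∀ e : {e : Set α // e ∈ q.val}, ∃ (z : T) (e' : {e : Set α // e ∈ q.val}),
      e'.1 ⊆ e.1 ∧ e.1 ∈ (w z).val ∧ e'.1 ∉ (w z).val := by
    rintro ⟨e, he⟩
    have h1 : ∀ᶠ x in 𝓝 t, e ∈ (w x).val :=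
      (hopen e).mem_nhds (show e ∈ (w t).val by rw [htq]; exact he)
    obtain ⟨z, hz1, hz2⟩ := ((h1.filter_mono nhdsWithin_le_nhds).and hev).exists
    obtain ⟨s, hs, hsz⟩ := exists_mem_notMem (k := (w z).val) (q := q.val) (fun h => hz2 (by
      rw [mem_singleton_iff]
      cases q; cases hwz : w z
      rw [hwz] at h
      simp only at h
      rw [h]))
    exact ⟨z, ⟨e ∩ s, inter_mem he hs⟩, inter_subset_left, hz1,
      fun h => hsz (mem_of_superset h inter_subset_right)⟩
  choose Z E hE1 hE2 hE3 using hstep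
  let e : ℕ → {e : Set α // e ∈ q.val} := fun j => Nat.rec ⟨univ, univ_mem⟩ (fun _ e => E e) j
  have hanti : ∀ i j, i ≤ j → (e j).1 ⊆ (e i).1 := by
    intro i j hij
    induction hij with
    | refl => exact subset_rfl
    | step _ ih => exact (hE1 _).trans ih
  obtain ⟨t', ht'⟩ := exists_clusterPt_of_compactSpace (map (fun j => Z (e j)) atTop)
  have ht'' : MapClusterPt t' atTop (fun j => Z (e j)) := ht'
  have hmem : ∀ j, (e j).1 ∈ (w t').val := by
    intro j
    refine (hclosed (e j).1).mem_of_mapClusterPt ht'' ?_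
    filter_upwards [eventually_ge_atTop j] with i hi
    exact mem_of_superset (hE2 (e i)) (hanti j i hi)
  have hV : IsOpen {x | ∀ j, (e j).1 ∈ (w x).val} :=
    (isOpen_kd (fun j => (e j).1)).preimage hw
  obtain ⟨i, hi⟩ := (ht''.frequently (hV.mem_nhds hmem)).exists
  exact hE3 (e i) (hi (i + 1))

/-- The double of the space of ultrafilters along the complement of a non-isolated point is not
UOK. -/
lemma not_uok_double (q : Ultrafilter α) (hq : ∀ a : α, q ≠ pure a) :
    ¬ UOK (Double (Ultrafilter α) {q}ᶜ) := by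
  intro h
  have hopen : IsOpen ({q}ᶜ : Set (Ultrafilter α)) := isOpen_compl_singleton
  let L : Type u := {k : Ultrafilter α // k ∈ ({q}ᶜ : Set (Ultrafilter α))}
  have : LocallyCompactSpace L := hopen.isOpenEmbedding_subtypeVal.locallyCompactSpace
  have : NoncompactSpace L := by
    rw [← not_compactSpace_iff]
    intro hc
    have h1 : IsCompact ({q}ᶜ : Set (Ultrafilter α)) := isCompact_iff_compactSpace.mpr hc
    have h2 : IsOpen ({q} : Set (Ultrafilter α)) := by
      have := h1.isClosed.isOpen_compl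
      rwa [compl_compl] at this
    obtain ⟨_, ⟨s, rfl⟩, hs, hsq⟩ := ultrafilterBasis_is_basis.exists_subset_of_mem_open
      (mem_singleton q) h2
    obtain ⟨a, ha⟩ := Ultrafilter.nonempty_of_mem (show s ∈ q from hs)
    exact hq a (hsq (show s ∈ (pure a : Ultrafilter α) from ha)).symm
  let j : OnePoint L → Ultrafilter α := fun x => x.elim q (fun l => l.1)
  have hj : Continuous j := by
    rw [OnePoint.continuous_iff]
    refine ⟨?_, continuous_subtype_val⟩
    rw [Filter.HasBasis.tendsto_right_iff (nhds_basis_opens _)]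
    rintro V ⟨hqV, hV⟩
    rw [Filter.coclosedCompact_eq_cocompact, Filter.eventually_iff, Filter.mem_cocompact]
    refine ⟨{l : L | l.1 ∉ V}, ?_, ?_⟩
    · rw [Subtype.isCompact_iff]
      have : Subtype.val '' {l : L | l.1 ∉ V} = Vᶜ := by
        ext k
        constructor
        · rintro ⟨l, hl, rfl⟩; exact hl
        · intro hk
          refine ⟨⟨k, ?_⟩, hk, rfl⟩
          rintro rfl
          exact hk hqV
      rw [this]
      exact hV.isClosed_compl.isCompact
    · intro l hl
      by_contra hcon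
      exact hl hcon
  have hgh := h L (fun l => inc {q}ᶜ true l.1) ((continuous_inc _ true).comp continuous_subtype_val)
    (fun x => inc {q}ᶜ true (j x)) (fun x => inc {q}ᶜ false (j x))
    ((continuous_inc _ true).comp hj) ((continuous_inc _ false).comp hj) (fun l => rfl)
    (fun l => (inc_eq_inc _).mpr ⟨rfl, Or.inr l.2⟩)
  have h1 : inc {q}ᶜ true q = inc {q}ᶜ false q := congrFun hgh ∞
  have h2 := (inc_eq_inc _).mp h1
  simp at h2

end beta

/-- **Theorem.** For every class `C` of topological spaces there is a space `X` for which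
`C`-Hausdorff and UOK are not equivalent. -/
theorem result (C : ∀ Z : Type u, TopologicalSpace Z → Prop) :
    ∃ (X : Type u) (_ : TopologicalSpace X), ¬ (CHausdorff C X ↔ UOK X) := by
  by_contra hcon
  push Not at hcon
  -- a free ultrafilter
  let N : Type u := ULift.{u} ℕ
  let q : Ultrafilter N := hyperfilter N
  have hq : ∀ a : N, q ≠ pure a := by
    intro a h
    have h1 : {a} ∈ q := by rw [h]; exact mem_singleton a
    exact (finite_singleton a).notMem_hyperfilter h1
  -- the non-UOK space and the witness that it is not `C`-Hausdorff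
  have hnot : ¬ CHausdorff C (Double (Ultrafilter N) {q}ᶜ) := fun h =>
    not_uok_double q hq ((hcon _ _).mp h)
  unfold CHausdorff CClosed at hnot
  push Not at hnot
  obtain ⟨Z, tZ, hZ, φ, hφ, hφc⟩ := hnot
  set E : Set Z := φ ⁻¹' {x | x.1 = x.2} with hE
  obtain ⟨p, hp, hpE⟩ : ∃ p ∈ closure E, p ∉ E := by
    by_contra h
    push Not at h
    exact hφc (isClosed_of_closure_subset h)
  set f : Z → Ultrafilter N := fun z => proj {q}ᶜ (φ z).1 with hf
  set g : Z → Ultrafilter N := fun z => proj {q}ᶜ (φ z).2 with hg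
  have hfc : Continuous f := (continuous_proj _).comp (continuous_fst.comp hφ)
  have hgc : Continuous g := (continuous_proj _).comp (continuous_snd.comp hφ)
  have hfg : f p = g p := by
    have h1 : IsClosed {z | f z = g z} := isClosed_eq hfc hgc
    have h2 : E ⊆ {z | f z = g z} := fun z hz => congrArg (proj {q}ᶜ) hz
    exact closure_minimal h2 h1 hp
  obtain ⟨a, ha⟩ := exists_inc {q}ᶜ (φ p).1
  obtain ⟨b, hb⟩ := exists_inc {q}ᶜ (φ p).2
  have hab : ¬ (a = b ∨ f p ∈ ({q}ᶜ : Set (Ultrafilter N))) := by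
    intro hab
    apply hpE
    show (φ p).1 = (φ p).2
    rw [ha, hb]
    exact (inc_eq_inc _).mpr ⟨hfg, hab⟩
  push Not at hab
  -- maps from `Z` to the space of ultrafilters are continuous for the `G_δ`-topology
  have hkey : ∀ w : Z → Ultrafilter N, Continuous w → Continuous (fun z => Kd.mk (w z)) := by
    intro w hw
    refine continuous_generateFrom_iff.mpr ?_
    rintro _ ⟨e, rfl⟩
    set A : Set (Ultrafilter N) := {k | ∃ n, (e n)ᶜ ∈ k} with hA
    have hAo : IsOpen A := by
      have : A = ⋃ n, {k : Ultrafilter N | (e n)ᶜ ∈ k} := by ext k; simp [hA]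
      rw [this]
      exact isOpen_iUnion fun n => ultrafilter_isOpen_basic _
    have h1 : UOK (Double (Ultrafilter N) A) :=
      uok_double A hAo fun T _ _ _ t _ w hw ht =>
        no_countable_approach (fun n => (e n)ᶜ) T t w hw ht
    have h2 : IsClosed ((fun z => (inc A true (w z), inc A false (w z))) ⁻¹' {x | x.1 = x.2}) :=
      (hcon _ _).mpr h1 Z tZ hZ _
        (((continuous_inc A true).comp hw).prodMk ((continuous_inc A false).comp hw))
    have h3 : ((fun z => Kd.mk (w z)) ⁻¹' {k : Kd N | ∀ j, e j ∈ k.val}) =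
        ((fun z => (inc A true (w z), inc A false (w z))) ⁻¹' {x | x.1 = x.2})ᶜ := by
      ext z
      rw [mem_compl_iff, mem_preimage, mem_preimage, mem_ofPred_eq, mem_ofPred_eq, inc_eq_inc]
      simp [hA]
    rw [h3]
    exact h2.isOpen_compl
  -- the double of `Kd` along the complement of `q` is UOK
  set Q : Set (Kd N) := {Kd.mk q}ᶜ with hQ
  have h1 : UOK (Double (Kd N) Q) :=
    uok_double _ isOpen_compl_singleton fun T _ _ _ t _ w hw ht =>
      no_approach_kd (Kd.mk q) T t w hw ht
  set F : Set Z := (fun z => (inc Q true (Kd.mk (f z)), inc Q false (Kd.mk (g z)))) ⁻¹'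
    {x | x.1 = x.2} with hF
  have h2 : IsClosed F :=
    (hcon _ _).mpr h1 Z tZ hZ _
      (((continuous_inc _ true).comp (hkey f hfc)).prodMk
        ((continuous_inc _ false).comp (hkey g hgc)))
  have hFmem : ∀ z, z ∈ F ↔ f z = g z ∧ f z ≠ q := by
    intro z
    rw [hF, mem_preimage, mem_ofPred_eq, inc_eq_inc]
    simp [hQ]
  -- the final contradiction
  have hqo : IsOpen ({q}ᶜ : Set (Ultrafilter N)) := isOpen_compl_singleton
  have hO : IsOpen {z | (φ z).1 ∈ range (inc ({q}ᶜ : Set (Ultrafilter N)) a) ∧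
      (φ z).2 ∈ range (inc ({q}ᶜ : Set (Ultrafilter N)) b)} :=
    ((isOpen_range_inc _ hqo a).preimage (continuous_fst.comp hφ)).inter
      ((isOpen_range_inc _ hqo b).preimage (continuous_snd.comp hφ))
  have hpO : p ∈ {z | (φ z).1 ∈ range (inc ({q}ᶜ : Set (Ultrafilter N)) a) ∧
      (φ z).2 ∈ range (inc ({q}ᶜ : Set (Ultrafilter N)) b)} :=
    ⟨⟨_, ha.symm⟩, ⟨_, hb.symm⟩⟩
  have hpF : p ∈ F := by
    rw [← h2.closure_eq, mem_closure_iff]
    intro o ho hpo
    obtain ⟨z, ⟨hzo, ⟨x, hx⟩, ⟨y, hy⟩⟩, hzE⟩ := mem_closure_iff.mp hp _ (ho.inter hO) ⟨hpo, hpO⟩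
    refine ⟨z, hzo, (hFmem z).mpr ?_⟩
    have hzE' : (φ z).1 = (φ z).2 := hzE
    have h3 := (inc_eq_inc _).mp (hx.trans (hzE'.trans hy.symm))
    have h4 : f z = x := by simp only [hf]; rw [← hx, proj_inc]
    have h5 : g z = y := by simp only [hg]; rw [← hy, proj_inc]
    refine ⟨by rw [h4, h5]; exact h3.1, ?_⟩
    rw [h4]
    rcases h3.2 with h6 | h6
    · exact absurd h6 hab.1
    · exact h6
  exact hab.2 ((hFmem p).mp hpF).2

end Pool.Agent.Results.MP_82653f_gt.NoTestClassForUOK
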